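import Pool.Agent.Run7.h833.CAz.P8a
import Pool.Agent.Run7.h336.CA11
import Pool.Agent.Y23.G.Fin
import Pool.Agent.W355.UN.Inst

/-!
# P8, second part: the Riemann zeta function as an instance; the explicit form of Weil's quadratic form
-/

set_option autoImplicit false
set_option linter.unusedSectionVars false
set_option maxHeartbeats 2000000

open Complex Filter Topology Set MeasureTheory
open scoped ComplexConjugate

namespace Pool.Agent.Y23.G.CA.Z

open Pool.Agent.W169.HF H353.E Pool.Agent.W355.UN Pool.Agent.TH839.NA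

/-- the Riemann zeta function -/
@[reducible] noncomputable def zL : LFun where
  m := 1
  r := 1
  N := 1
  a := fun _ => 0
  b := fun _ => 1
  c := fun n => if n = 0 then 0 else 1
  X := xi
  raw := by
    have h := zeta_raw
    unfold RawL at h
    refine ⟨le_rfl, le_rfl, le_rfl, by norm_num, by norm_num, fun j => by norm_num, xi_diff, h.order, h.fe,
      rfl, fun n => ?_, fun n hn => ?_, ?_⟩
    · by_cases hn : n = 0
      · rw [if_pos hn, norm_zero]
        positivity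
      · rw [if_neg hn, norm_one, Nat.cast_one, one_mul]
        have h1 : (1 : ℝ) ≤ n := by exact_mod_cast Nat.one_le_iff_ne_zero.2 hn
        exact Real.one_le_rpow h1 (by norm_num)
    · have h1 := h.conv n hn
      rw [h1]
      refine Finset.sum_congr rfl fun d hd => ?_
      rw [if_neg (Nat.pos_of_mem_divisors hd).ne']
    · obtain ⟨σ, h1⟩ := h.eq
      refine ⟨σ, fun s hs => ?_⟩
      have h2 := h1 s hs
      rw [prod_get [0] (fun a : ℂ => Gammaℝ (s + a))] at h2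
      simp only [List.map_cons, List.map_nil, List.prod_cons, List.prod_nil, mul_one] at h2
      rw [Fin.prod_univ_one]
      exact h2
  str := fun _ => by norm_num

/-- the zeros are symmetric -/
theorem sym : Sym (zd (L := zL)) := fun s hs => by
  refine ⟨?_, xi_mult s⟩
  show xi (1 - s) = 0
  rw [xi_one_sub]
  exact hs

lemma cc_eq : cc (L := zL) = Real.pi := by
  unfold cc
  have e1 : zL.m = 1 := rfl
  have e2 : zL.N = 1 := rfl
  rw [e1, e2]
  simp

/-! ### the explicit form -/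

/-- The transform of `f`, centred at `1/2`. -/
noncomputable def M (f : ℝ → ℂ) (s : ℂ) : ℂ := ∫ x : ℝ, f x * cexp ((s - 1 / 2) * x)

/-- The form domain. -/
def InDom (a : ℝ) (f : ℝ → ℂ) : Prop := MemLp f 2 volume ∧ (∀ x : ℝ, a < |x| → f x = 0) ∧
  Integrable fun t : ℝ => Real.log (3 + |t|) * ‖M f (1 / 2 + t * I)‖ ^ 2

/-- Weil's quadratic form of zeta for functions supported in `[-a, a]`. -/
noncomputable def W (a : ℝ) (f : ℝ → ℂ) : ℝ :=
  2 * (M f 1 * (starRingEnd ℂ) (M f 0)).re +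
    1 / (2 * Real.pi) * (∫ t : ℝ, ((digamma ((1 / 2 + t * I) / 2)).re - Real.log Real.pi) *
      ‖M f (1 / 2 + t * I)‖ ^ 2) -
    2 * (∑ n ∈ Finset.Icc 1 ⌊Real.exp (2 * a)⌋₊, ArithmeticFunction.vonMangoldt n / Real.sqrt n *
      ∫ x : ℝ, f (x + Real.log n) * (starRingEnd ℂ) (f x)).re

/-- The mass of the transform on the window `|t| ≤ k` of the critical line. -/
noncomputable def Mass (k : ℝ) (f : ℝ → ℂ) : ℝ := ∫ t in Icc (-k) k, ‖M f (1 / 2 + t * I)‖ ^ 2

lemma M_eq (f : ℝ → ℂ) (s : ℂ) : M f s = Y23.TT f (s - 1 / 2) := rfl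

lemma M_line (f : ℝ → ℂ) (t : ℝ) : M f (1 / 2 + t * I) = Y23.TT f (t * I) := by
  rw [M_eq]; congr 1; ring

lemma inDom_iff (a : ℝ) (f : ℝ → ℂ) : InDom a f ↔ Hd a f := by
  unfold InDom Hd Y23.Fa Lg
  simp only [M_line, and_assoc]

lemma Mass_eq [K : Win] (f : ℝ → ℂ) : Mass K.k f = NH f := by
  unfold Mass NH wi
  simp only [M_line]

lemma GD_eq (t : ℝ) : (GD (L := zL)) t = (digamma ((1 / 2 + t * I) / 2)).re - Real.log Real.pi := by
  unfold GD GA H353.E.gaD
  have e1 : (⟨1 / 2, t⟩ : ℂ) = 1 / 2 + t * I := by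
    rw [H370.mk_eq]; push_cast; ring
  rw [e1, Complex.add_re, Complex.ofReal_re, Complex.re_sum, mul_add, Finset.mul_sum]
  have e2 : zL.N = 1 := rfl
  rw [e2, Real.log_one]
  refine (congrArg (fun x : ℝ => 2 * (0 / 2) + x) (Fin.sum_univ_one _)).trans ?_
  have e3 : (1 / 2 + (t : ℂ) * I - -(zL).a 0) / 2 = (1 / 2 + t * I) / 2 := by
    show (1 / 2 + (t : ℂ) * I - -(0 : ℂ)) / 2 = _
    ring
  show 2 * (0 / 2) + 2 * (((-Real.log Real.pi / 2 : ℝ) : ℂ) + logDeriv Gamma ((1 / 2 + (t : ℂ) * I - -(zL).a 0) / 2) / 2).re = _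
  rw [e3, Complex.add_re, Complex.ofReal_re]
  have e4 : logDeriv Gamma ((1 / 2 + (t : ℂ) * I) / 2) = digamma ((1 / 2 + t * I) / 2) := rfl
  rw [e4]
  have e5 : (digamma ((1 / 2 + (t : ℂ) * I) / 2) / 2).re = (digamma ((1 / 2 + t * I) / 2)).re / 2 := by
    rw [show (2 : ℂ) = ((2 : ℝ) : ℂ) by norm_num, Complex.div_ofReal_re]
  rw [e5]
  ring

lemma W_eq {a : ℝ} (ha : 0 < a) {f : ℝ → ℂ} (hf : InDom a f) : W a f = QQ (D := zd (L := zL)) f := by
  rw [weil (L := zL) ha ((inDom_iff a f).1 hf)]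
  have e1 : M f 1 = Y23.TT f (1 / 2) := by rw [M_eq]; congr 1; ring
  have e2 : M f 0 = Y23.TT f (-(1 / 2)) := by rw [M_eq]; congr 1; ring
  have e3 : ∀ n ∈ Finset.Icc 1 ⌊Real.exp (2 * a)⌋₊, ((ArithmeticFunction.vonMangoldt n : ℝ) : ℂ) / ((Real.sqrt n : ℝ) : ℂ) *
      (∫ x : ℝ, f (x + Real.log n) * (starRingEnd ℂ) (f x)) = aL (L := zL) n *
      ∫ x : ℝ, f (x + Real.log n) * (starRingEnd ℂ) (f x) := by
    intro n hn
    have hn1 := (Finset.mem_Icc.1 hn).1
    congr 1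
    have e3 : aL (L := zL) n = ((ArithmeticFunction.vonMangoldt n : ℝ) : ℂ) *
        ((if n = 0 then 0 else 1) * TH839.NA.pw (-(1 / 2)) n) := rfl
    rw [e3, if_neg (by omega)]
    unfold TH839.NA.pw
    rw [Real.rpow_neg (Nat.cast_nonneg _), ← Real.sqrt_eq_rpow]
    push_cast
    ring
  unfold W
  rw [Finset.sum_congr rfl e3]
  have e4 : ((zL.r : ℕ) : ℝ) = 1 := by
    show ((1 : ℕ) : ℝ) = 1
    norm_num
  rw [e4, mul_one]
  simp only [e1, e2, M_line, GD_eq]

end Pool.Agent.Y23.G.CA.Z
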