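import Pool.Agent.Run7.h833.CAz.P8a

/-!
# P10: `xi` is not of exponential type
-/

set_option autoImplicit false
set_option maxHeartbeats 2000000

open Complex Filter Topology Set MeasureTheory
open scoped ComplexConjugate Nat

namespace Pool.Agent.Y23.G.CA.Z

lemma zeta_nat_ge {n : ℕ} (hn : 1 < n) : 1 ≤ ‖riemannZeta n‖ := by
  rw [zeta_nat_eq_tsum_of_gt_one hn]
  have hs : Summable fun m : ℕ => 1 / (m : ℝ) ^ n := Real.summable_one_div_nat_pow.2 hn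
  have e : (∑' m : ℕ, 1 / (m : ℂ) ^ n) = ((∑' m : ℕ, 1 / (m : ℝ) ^ n : ℝ) : ℂ) := by
    rw [Complex.ofReal_tsum]
    refine tsum_congr fun m => ?_
    push_cast
    rfl
  rw [e, Complex.norm_real, Real.norm_eq_abs]
  refine le_trans ?_ (le_abs_self _)
  have h1 := hs.le_tsum 1 (fun m _ => by positivity)
  simpa using h1

lemma xi_zeta' {s : ℂ} (hs0 : s ≠ 0) (hs1 : s ≠ 1) (hG : Gammaℝ s ≠ 0) :
    xi s = s * (s - 1) * Gammaℝ s * riemannZeta s := by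
  have h4 := riemannZeta_def_of_ne_zero hs0
  have h6 : s - 1 ≠ 0 := sub_ne_zero.2 hs1
  have h7 : 1 - s ≠ 0 := sub_ne_zero.2 (Ne.symm hs1)
  have h8 : completedRiemannZeta₀ s = completedRiemannZeta s + 1 / s + 1 / (1 - s) := by
    rw [completedRiemannZeta_eq]
    ring
  have h9 : completedRiemannZeta s = Gammaℝ s * riemannZeta s := by
    rw [h4]
    field_simp
  unfold xi
  rw [h8, h9]
  field_simp
  ring

lemma xi_nat {n : ℕ} (hn : 1 ≤ n) : (n - 1)! * (Real.pi ^ n)⁻¹ ≤ ‖xi (2 * n)‖ := by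
  have hn1 : (1 : ℝ) ≤ n := by exact_mod_cast hn
  have hnc : (2 * n : ℂ) = ((2 * n : ℝ) : ℂ) := by push_cast; rfl
  have hre : ((2 * n : ℂ)).re = 2 * n := by rw [hnc, Complex.ofReal_re]
  have hs0 : (2 * n : ℂ) ≠ 0 := by
    intro h
    rw [h] at hre
    simp at hre
    omega
  have hs1 : (2 * n : ℂ) ≠ 1 := by
    intro h
    rw [h] at hre
    simp at hre
    linarith
  have hG : Gammaℝ (2 * n) ≠ 0 := Complex.Gammaℝ_ne_zero_of_re_pos (by rw [hre]; linarith)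
  have hx := xi_zeta' hs0 hs1 hG
  have hz : 1 ≤ ‖riemannZeta (2 * n)‖ := by
    have := zeta_nat_ge (n := 2 * n) (by omega)
    push_cast at this
    exact this
  have hGn : ‖Gammaℝ (2 * n)‖ = (n - 1)! * (Real.pi ^ n)⁻¹ := by
    rw [Gammaℝ_def, norm_mul]
    have e1 : (2 * n : ℂ) / 2 = ((n - 1 : ℕ) : ℂ) + 1 := by
      rw [Nat.cast_sub hn]
      push_cast
      ring
    have e2 : -(2 * n : ℂ) / 2 = -(n : ℂ) := by ring
    rw [e1, Complex.Gamma_nat_eq_factorial, e2, Complex.cpow_neg, Complex.cpow_natCast, norm_inv, norm_pow,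
      Complex.norm_real, Real.norm_eq_abs, abs_of_pos Real.pi_pos, Complex.norm_natCast, mul_comm]
  have h10 : 1 ≤ ‖(2 * n : ℂ)‖ := by
    rw [hnc, Complex.norm_real, Real.norm_eq_abs, abs_of_pos (by linarith)]
    linarith
  have h11 : 1 ≤ ‖(2 * n : ℂ) - 1‖ := by
    have e : (2 * n : ℂ) - 1 = ((2 * n - 1 : ℝ) : ℂ) := by push_cast; rfl
    rw [e, Complex.norm_real, Real.norm_eq_abs, abs_of_pos (by linarith)]
    linarith
  rw [hx, norm_mul, norm_mul, norm_mul, hGn]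
  have h12 : (0 : ℝ) ≤ (n - 1)! * (Real.pi ^ n)⁻¹ := by positivity
  have h13 : 1 ≤ ‖(2 * n : ℂ)‖ * ‖(2 * n : ℂ) - 1‖ := by nlinarith
  calc (n - 1)! * (Real.pi ^ n)⁻¹ ≤ ‖(2 * n : ℂ)‖ * ‖(2 * n : ℂ) - 1‖ * ((n - 1)! * (Real.pi ^ n)⁻¹) :=
        le_mul_of_one_le_left h12 h13
    _ ≤ _ := le_mul_of_one_le_right (by positivity) hz

/-- `xi` is not of exponential type -/
theorem xi_not_exp : ¬ ∃ C a : ℝ, ∀ w : ℂ, ‖xi (1 / 2 + w)‖ ≤ C * Real.exp (a * ‖w‖) := by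
  rintro ⟨C, a, h⟩
  obtain ⟨c, hc⟩ : ∃ c : ℝ, c = Real.pi * Real.exp (2 * |a|) := ⟨_, rfl⟩
  have hc0 : 0 < c := by rw [hc]; positivity
  have key : ∀ k : ℕ, 1 ≤ |C| * c * (c ^ k / k !) := by
    intro k
    have h1 := xi_nat (n := k + 1) (by omega)
    have h2 := h (2 * ((k + 1 : ℕ) : ℂ) - 1 / 2)
    rw [show (1 / 2 + (2 * ((k + 1 : ℕ) : ℂ) - 1 / 2) : ℂ) = 2 * ((k + 1 : ℕ) : ℂ) by ring] at h2
    have h3 : ‖(2 * ((k + 1 : ℕ) : ℂ) - 1 / 2)‖ ≤ 2 * (k + 1) := by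
      have e : (2 * ((k + 1 : ℕ) : ℂ) - 1 / 2) = ((2 * (k + 1) - 1 / 2 : ℝ) : ℂ) := by push_cast; rfl
      have hk : (0 : ℝ) ≤ k := Nat.cast_nonneg k
      rw [e, Complex.norm_real, Real.norm_eq_abs, abs_of_pos (by linarith)]
      linarith
    obtain ⟨N, hN⟩ : ∃ N : ℝ, N = ‖(2 * ((k + 1 : ℕ) : ℂ) - 1 / 2)‖ := ⟨_, rfl⟩
    have hN0 : 0 ≤ N := by rw [hN]; exact norm_nonneg _
    rw [← hN] at h2 h3
    have h4 : C * Real.exp (a * N) ≤ |C| * Real.exp (2 * |a|) ^ (k + 1) := by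
      rw [← Real.exp_nat_mul]
      refine mul_le_mul (le_abs_self C) (Real.exp_le_exp.2 ?_) (Real.exp_pos _).le (abs_nonneg C)
      have h5 : a * N ≤ |a| * (2 * (k + 1)) :=
        mul_le_mul (le_abs_self a) h3 hN0 (abs_nonneg a)
      push_cast
      linarith
    have h5 := (h1.trans h2).trans h4
    rw [Nat.add_sub_cancel] at h5
    have hk : (0 : ℝ) < (k ! : ℝ) := by exact_mod_cast Nat.factorial_pos k
    have hp : 0 < Real.pi ^ (k + 1) := pow_pos Real.pi_pos _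
    rw [mul_inv_le_iff₀ hp] at h5
    have e : |C| * c * (c ^ k / (k ! : ℝ)) = (|C| * Real.exp (2 * |a|) ^ (k + 1) * Real.pi ^ (k + 1)) / (k ! : ℝ) := by
      rw [hc, mul_pow, pow_succ, pow_succ]
      ring
    rw [e, le_div_iff₀ hk, one_mul]
    exact h5
  have hlim := (FloorSemiring.tendsto_pow_div_factorial_atTop c).const_mul (|C| * c)
  rw [mul_zero] at hlim
  obtain ⟨k, hk⟩ := (hlim.eventually (gt_mem_nhds one_pos)).exists
  exact absurd (key k) (not_le.2 hk)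

end Pool.Agent.Y23.G.CA.Z
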