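import Pool.Agent.Y23.G.Fin
import Pool.Agent.Y23.G.Gz5

/-!
# P11: Weil's criterion: a nonnegative form gives the Riemann hypothesis
-/

set_option autoImplicit false
set_option linter.unusedSectionVars false
set_option maxHeartbeats 2000000

open Complex Filter Topology Set MeasureTheory Metric
open scoped ComplexConjugate

namespace Pool.Agent.Y23.G

variable [L : LFun]

/-- a lower bound with a doubly exponentially small defect for arbitrarily large supports is enough -/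
theorem above_RH {c : ℝ} (hc : 0 < c)
    (h : ∀ A : ℝ, ∃ a : ℝ, A ≤ a ∧ ∀ f : ℝ → ℂ, Hd a f → -(Real.exp (-(c * Real.exp (2 * a / L.m))) * N2 f) ≤ QQ f) :
    ∀ ρ : Zt, (ρ : ℂ).re = 1 / 2 := by
  intro ρ
  have hm1 : (1 : ℝ) ≤ L.m := m_one (L := L)
  have hm : (0 : ℝ) < L.m := by linarith
  have hpi := Real.pi_pos
  have hcc : 0 < cc (L := L) := by
    unfold cc
    positivity
  obtain ⟨c0, hc0d⟩ : ∃ c0 : ℝ, c0 = c / 2 := ⟨_, rfl⟩
  have hc0 : 0 < c0 := by rw [hc0d]; positivity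
  obtain ⟨θ, hθd⟩ : ∃ θ : ℝ, θ = min (cc (L := L)) c0 / (Real.pi * L.m) := ⟨_, rfl⟩
  have hmin : 0 < min (cc (L := L)) c0 := lt_min hcc hc0
  have hθ0 : 0 < θ := by rw [hθd]; positivity
  have hθe : Real.pi * L.m / 4 * θ = min (cc (L := L)) c0 / 4 := by
    rw [hθd]
    field_simp
  obtain ⟨κ, A, hκ, hA, hloc⟩ := gs_gen (L := L) (c0 := c0) (θ := θ) hθ0.le
    (by rw [hθe]; have := min_le_left (cc (L := L)) c0; linarith)
    (by rw [hθe]; have := min_le_right (cc (L := L)) c0; linarith)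
  by_contra hne
  have h5 : 0 < |(ρ : ℂ).re - 1 / 2| := abs_pos.2 (sub_ne_zero.2 hne)
  have hlim : Tendsto (fun a : ℝ => Real.exp (2 * a / L.m)) atTop atTop :=
    Real.tendsto_exp_atTop.comp
      (Tendsto.atTop_div_const hm (Tendsto.const_mul_atTop (by norm_num) tendsto_id))
  have hlim2 : Tendsto (fun a : ℝ => θ * Real.exp (2 * a / L.m)) atTop atTop :=
    hlim.const_mul_atTop hθ0
  have hdom : ∀ a : ℝ, 1 ≤ a → a / L.m ^ 2 ≤ Real.exp (2 * a / L.m) / a := by
    intro a ha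
    have h1 := Real.quadratic_le_exp_of_nonneg (x := 2 * a / L.m) (by positivity)
    have h2 : (2 * a / (L.m : ℝ)) ^ 2 / 2 = 2 * (a ^ 2 / L.m ^ 2) := by ring
    have h3 : 0 ≤ 2 * a / (L.m : ℝ) := by positivity
    have h4 : 0 ≤ a ^ 2 / (L.m : ℝ) ^ 2 := by positivity
    rw [le_div_iff₀ (by linarith)]
    have h5 : a / (L.m : ℝ) ^ 2 * a = a ^ 2 / L.m ^ 2 := by ring
    rw [h5]
    linarith
  have hlim3 : Tendsto (fun a : ℝ => Real.exp (-κ * (a / L.m ^ 2))) atTop (nhds 0) := by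
    refine Real.tendsto_exp_atBot.comp ?_
    refine Tendsto.const_mul_atTop_of_neg (by linarith) ?_
    exact Tendsto.atTop_div_const (by positivity) tendsto_id
  obtain ⟨A1, hA1⟩ := Filter.eventually_atTop.1 ((hlim3.eventually (gt_mem_nhds h5)).and
    (hlim2.eventually (Filter.eventually_ge_atTop |(ρ : ℂ).im|)))
  obtain ⟨a, ha, hpos⟩ := h (max (max A A1) 1)
  have haA : A ≤ a := (le_max_left _ _).trans ((le_max_left _ _).trans ha)
  have haA1 : A1 ≤ a := (le_max_right _ _).trans ((le_max_left _ _).trans ha)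
  have ha1 : 1 ≤ a := (le_max_right _ _).trans ha
  obtain ⟨k1, k2⟩ := hA1 a haA1
  obtain ⟨e, N, hK, -, -, hz, -⟩ := structure_thm (show 0 < a by linarith)
  obtain ⟨w, hw1, hw2⟩ := hloc a haA (fun f hf => by
    have := hpos f hf
    have e1 : 2 * c0 = c := by rw [hc0d]; ring
    rw [e1]
    exact this) e hK ((ρ : ℂ) - 1 / 2) (by rw [add_sub_cancel]; exact ρ.2) (by
      have e1 : ((ρ : ℂ) - 1 / 2).im = (ρ : ℂ).im := by simp
      rw [e1]
      exact k2)
  have h6 := (hz w hw2).1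
  have h7 := Complex.abs_re_le_norm (w - ((ρ : ℂ) - 1 / 2))
  have e2 : (w - ((ρ : ℂ) - 1 / 2)).re = -((ρ : ℂ).re - 1 / 2) := by
    simp [h6]
  rw [e2, abs_neg] at h7
  have k4 : Real.exp (-(κ * Real.exp (2 * a / L.m) / a)) ≤ Real.exp (-κ * (a / L.m ^ 2)) := by
    apply Real.exp_le_exp.2
    have := mul_le_mul_of_nonneg_left (hdom a ha1) hκ.le
    have e : κ * Real.exp (2 * a / L.m) / a = κ * (Real.exp (2 * a / L.m) / a) := by ring
    rw [e, neg_mul]
    linarith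
  linarith

/-- **Weil's criterion** -/
theorem pos_RH (h : ∀ a : ℝ, 0 < a → ∀ f : ℝ → ℂ, Hd a f → 0 ≤ QQ f) : ∀ ρ : Zt, (ρ : ℂ).re = 1 / 2 := by
  refine above_RH (c := 1) one_pos fun A => ⟨max A 1, le_max_left _ _, fun f hf => ?_⟩
  have h1 := h (max A 1) (lt_of_lt_of_le one_pos (le_max_right _ _)) f hf
  have h2 := mul_nonneg (Real.exp_pos (-(1 * Real.exp (2 * max A 1 / L.m)))).le (N2_nonneg f)
  linarith

end Pool.Agent.Y23.G
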