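import Pool.Agent.H24R2.JP.B1
import Pool.Agent.H24R2.JP.Grow
import Pool.Agent.H24R2.JP.Zeros
import Pool.Agent.H24R2.JP.Farey
import Pool.Agent.H370R2.Defs

/-!
# P8, first part: the function `s (s - 1) Λ(s)`
-/

set_option autoImplicit false
set_option maxHeartbeats 2000000

open Complex Filter Topology Set MeasureTheory
open scoped ComplexConjugate

namespace Pool.Agent.Y23.G.CA.Z

open Pool.Agent.H24R2.JP (XX FF grow b1)
open Pool.Agent.H24R2.JP.B1h (FF_sq XX_neg XX_diff XX_conj)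

/-- twice Riemann's function `ξ`: `s (s - 1) Λ(s)` -/
noncomputable def xi (s : ℂ) : ℂ := s * (s - 1) * completedRiemannZeta₀ s + 1

lemma xi_diff : Differentiable ℂ xi := by
  have h1 := differentiable_completedZeta₀
  unfold xi
  fun_prop

lemma xi_XX (w : ℂ) : XX w = 4 * xi (1 / 2 + w) := by
  unfold XX xi
  ring

lemma xi_half (w : ℂ) : xi (1 / 2 + w) = XX w / 4 := by
  rw [xi_XX]
  ring

/-- the functional equation -/
lemma xi_even (w : ℂ) : xi (1 / 2 + -w) = xi (1 / 2 + w) := by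
  rw [xi_half, xi_half, XX_neg]

lemma xi_one_sub (s : ℂ) : xi (1 - s) = xi s := by
  have h := xi_even (s - 1 / 2)
  have e1 : (1 / 2 + -(s - 1 / 2) : ℂ) = 1 - s := by ring
  have e2 : (1 / 2 + (s - 1 / 2) : ℂ) = s := by ring
  rwa [e1, e2] at h

lemma xi_conj (s : ℂ) : xi (conj s) = conj (xi s) := by
  have h := XX_conj (s - 1 / 2)
  rw [xi_XX, xi_XX] at h
  have e1 : (1 / 2 + (starRingEnd ℂ) (s - 1 / 2) : ℂ) = conj s := by
    rw [map_sub, map_div₀, map_one, map_ofNat]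
    ring
  have e2 : (1 / 2 + (s - 1 / 2) : ℂ) = s := by ring
  rw [e1, e2, map_mul, map_ofNat] at h
  exact mul_left_cancel₀ (by norm_num : (4 : ℂ) ≠ 0) h

lemma xi_one : xi 1 = 1 := by unfold xi; ring

/-- the growth in the centred variable -/
lemma xi_growth : ∃ A : ℝ, ∀ w : ℂ, ‖xi (1 / 2 + w)‖ ≤ Real.exp (A * (1 + ‖w‖) ^ (3 / 2 : ℝ)) := by
  obtain ⟨K, hK⟩ := grow b1
  refine ⟨|K|, fun w => ?_⟩
  have h0 := norm_nonneg w
  have h1 := hK (w ^ 2)
  rw [FF_sq, norm_pow] at h1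
  rw [xi_half, norm_div]
  have h2 : ‖(4 : ℂ)‖ = 4 := by norm_num
  rw [h2, div_le_iff₀ (by norm_num)]
  refine h1.trans ?_
  have h3 : (1 + ‖w‖ ^ 2) ^ (3 / 4 : ℝ) ≤ (1 + ‖w‖) ^ (3 / 2 : ℝ) := by
    have h4 : (1 + ‖w‖) ^ (3 / 2 : ℝ) = ((1 + ‖w‖) ^ 2) ^ (3 / 4 : ℝ) := by
      rw [← Real.rpow_natCast, ← Real.rpow_mul (by positivity)]
      norm_num
    rw [h4]
    refine Real.rpow_le_rpow (by positivity) ?_ (by norm_num)
    nlinarith
  have h5 : 0 ≤ (1 + ‖w‖ ^ 2) ^ (3 / 4 : ℝ) := by positivity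
  have h6 : K * (1 + ‖w‖ ^ 2) ^ (3 / 4 : ℝ) ≤ |K| * (1 + ‖w‖) ^ (3 / 2 : ℝ) :=
    (mul_le_mul_of_nonneg_right (le_abs_self K) h5).trans (mul_le_mul_of_nonneg_left h3 (abs_nonneg K))
  have h7 := Real.exp_le_exp.2 h6
  have h8 := Real.exp_pos (|K| * (1 + ‖w‖) ^ (3 / 2 : ℝ))
  linarith

/-- the zeros of `xi` are the nontrivial zeros of zeta -/
lemma xi_zero_iff (s : ℂ) : xi s = 0 ↔ riemannZeta s = 0 ∧ 0 < s.re ∧ s.re < 1 := by
  have key : ∀ s : ℂ, xi s = 0 → s ≠ 0 ∧ 1 - s ≠ 0 ∧ completedRiemannZeta s = 0 := by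
    intro s h
    have h1 : XX (s - 1 / 2) = 0 := by
      rw [xi_XX, show (1 / 2 + (s - 1 / 2) : ℂ) = s by ring, h, mul_zero]
    have h2 := Pool.Agent.H24R2.JP.Zer.completed_zero _ h1
    rwa [show (1 / 2 + (s - 1 / 2) : ℂ) = s by ring] at h2
  have right : ∀ s : ℂ, xi s = 0 → s.re < 1 := by
    intro s h
    by_contra hcon
    push Not at hcon
    obtain ⟨h0, h1, h2⟩ := key s h
    have h3 := riemannZeta_def_of_ne_zero h0
    rw [h2, zero_div] at h3
    exact riemannZeta_ne_zero_of_one_le_re hcon h3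
  constructor
  · intro h
    obtain ⟨h0, h1, h2⟩ := key s h
    have h3 := riemannZeta_def_of_ne_zero h0
    rw [h2, zero_div] at h3
    refine ⟨h3, ?_, right s h⟩
    have h4 := right (1 - s) (by rw [xi_one_sub, h])
    simp at h4
    exact h4
  · rintro ⟨h1, h2, h3⟩
    have hs0 : s ≠ 0 := by rintro rfl; simp at h2
    have hs1 : s ≠ 1 := by rintro rfl; simp at h3
    have hG : Gammaℝ s ≠ 0 := Complex.Gammaℝ_ne_zero_of_re_pos h2
    have h4 := riemannZeta_def_of_ne_zero hs0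
    rw [h1] at h4
    have h5 : completedRiemannZeta s = 0 := by
      rcases div_eq_zero_iff.1 h4.symm with h | h
      · exact h
      · exact absurd h hG
    rw [completedRiemannZeta_eq] at h5
    have h6 : s - 1 ≠ 0 := sub_ne_zero.2 hs1
    have h7 : 1 - s ≠ 0 := sub_ne_zero.2 (Ne.symm hs1)
    have h8 : completedRiemannZeta₀ s = 1 / s + 1 / (1 - s) := by linear_combination h5
    unfold xi
    rw [h8]
    field_simp
    ring

lemma xi_zeta {s : ℂ} (h0 : 0 < s.re) (h1 : s.re < 1) : xi s = s * (s - 1) * Gammaℝ s * riemannZeta s := by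
  have hs0 : s ≠ 0 := by rintro rfl; simp at h0
  have hs1 : s ≠ 1 := by rintro rfl; simp at h1
  have hG : Gammaℝ s ≠ 0 := Complex.Gammaℝ_ne_zero_of_re_pos h0
  have h4 := riemannZeta_def_of_ne_zero hs0
  have h6 : s - 1 ≠ 0 := sub_ne_zero.2 hs1
  have h7 : 1 - s ≠ 0 := sub_ne_zero.2 (Ne.symm hs1)
  have h8 : completedRiemannZeta₀ s = completedRiemannZeta s + 1 / s + 1 / (1 - s) := by
    rw [completedRiemannZeta_eq]
    ring
  have h9 : completedRiemannZeta s = Gammaℝ s * riemannZeta s := by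
    rw [h4]
    field_simp
  unfold xi
  rw [h8, h9]
  field_simp
  ring

/-- the derivative at a zero -/
lemma xi_deriv {s : ℂ} (h : xi s = 0) : deriv xi s = s * (s - 1) * Gammaℝ s * deriv riemannZeta s := by
  obtain ⟨hz, h0, h1⟩ := (xi_zero_iff s).1 h
  have hs1 : s ≠ 1 := by rintro rfl; simp at h1
  have hG : Gammaℝ s ≠ 0 := Complex.Gammaℝ_ne_zero_of_re_pos h0
  have hGd : DifferentiableAt ℂ Gammaℝ s := by
    have h2 := (differentiable_Gammaℝ_inv s).inv (inv_ne_zero hG)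
    refine h2.congr_of_eventuallyEq (Eventually.of_forall fun z => ?_)
    simp
  have hev : xi =ᶠ[𝓝 s] fun z => z * (z - 1) * Gammaℝ z * riemannZeta z := by
    have o1 : IsOpen {z : ℂ | 0 < z.re} := isOpen_lt continuous_const Complex.continuous_re
    have o2 : IsOpen {z : ℂ | z.re < 1} := isOpen_lt Complex.continuous_re continuous_const
    filter_upwards [o1.mem_nhds h0, o2.mem_nhds h1] with z hz0 hz1
    exact xi_zeta hz0 hz1
  rw [hev.deriv_eq]
  have hu : DifferentiableAt ℂ (fun z : ℂ => z * (z - 1) * Gammaℝ z) s := by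
    refine DifferentiableAt.mul ?_ hGd
    fun_prop
  have h3 := (hu.hasDerivAt.mul (differentiableAt_riemannZeta hs1).hasDerivAt).deriv
  have h4 : deriv (fun z => z * (z - 1) * Gammaℝ z * riemannZeta z) s =
      deriv (fun z : ℂ => z * (z - 1) * Gammaℝ z) s * riemannZeta s +
        s * (s - 1) * Gammaℝ s * deriv riemannZeta s := h3
  rw [h4, hz, mul_zero, zero_add]

lemma xi_deriv_ne_iff {s : ℂ} (h : xi s = 0) : deriv xi s ≠ 0 ↔ deriv riemannZeta s ≠ 0 := by
  obtain ⟨hz, h0, h1⟩ := (xi_zero_iff s).1 h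
  have hs0 : s ≠ 0 := by rintro rfl; simp at h0
  have hs1 : s - 1 ≠ 0 := sub_ne_zero.2 (by rintro rfl; simp at h1)
  have hG : Gammaℝ s ≠ 0 := Complex.Gammaℝ_ne_zero_of_re_pos h0
  rw [xi_deriv h, mul_ne_zero_iff, and_iff_right (mul_ne_zero (mul_ne_zero hs0 hs1) hG)]

/-- all zeros of `xi` are simple if and only if all nontrivial zeros of zeta are simple -/
lemma simple_iff : (∀ s : ℂ, xi s = 0 → deriv xi s ≠ 0) ↔
    ∀ s : ℂ, riemannZeta s = 0 → 0 < s.re → s.re < 1 → deriv riemannZeta s ≠ 0 := by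
  constructor
  · intro h s h1 h2 h3
    have h4 := (xi_zero_iff s).2 ⟨h1, h2, h3⟩
    exact (xi_deriv_ne_iff h4).1 (h s h4)
  · intro h s hs
    obtain ⟨h1, h2, h3⟩ := (xi_zero_iff s).1 hs
    exact (xi_deriv_ne_iff hs).2 (h s h1 h2 h3)

lemma xi_mult (s : ℂ) : H370.mult xi (1 - s) = H370.mult xi s := by
  unfold H370.mult analyticOrderNatAt
  have h1 : AnalyticAt ℂ (fun z : ℂ => 1 - z) s := by fun_prop
  have h2 : deriv (fun z : ℂ => 1 - z) s ≠ 0 := by
    have h3 : HasDerivAt (fun z : ℂ => 1 - z) (-1) s := by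
      simpa using (hasDerivAt_id s).const_sub 1
    rw [h3.deriv]
    norm_num
  have h3 := analyticOrderAt_comp_of_deriv_ne_zero (f := xi) (g := fun z : ℂ => 1 - z) h1 h2
  have e : xi ∘ (fun z : ℂ => 1 - z) = xi := by
    funext z
    exact xi_one_sub z
  rw [e] at h3
  rw [h3]

lemma rh_iff : RiemannHypothesis ↔ ∀ s : ℂ, xi s = 0 → s.re = 1 / 2 := by
  constructor
  · intro h s hs
    obtain ⟨h1, h2, h3⟩ := (xi_zero_iff s).1 hs
    refine h s h1 ?_ (by rintro rfl; simp at h3)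
    rintro ⟨n, hn⟩
    rw [hn] at h2
    simp at h2
    have : (0 : ℝ) ≤ n := Nat.cast_nonneg n
    linarith
  · intro h
    refine Pool.Agent.H24R2.JP.Farey.RH_of fun s hs _ h1 => ?_
    rcases lt_or_ge s.re 1 with h2 | h2
    · have h3 := h s ((xi_zero_iff s).2 ⟨h1, by linarith, h2⟩)
      linarith
    · exact riemannZeta_ne_zero_of_one_le_re h2 h1

end Pool.Agent.Y23.G.CA.Z
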